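import Pool.Agent.Lib.NGV.Mn

/-!
# NGV / Clq: `M ∣ q^n - 1` and `M ∣ q^i - 2`: a complete graph on `M + 1` vertices

`u^M = v^M = 1`: `N(u - v) N(u + v) = N(u^2 - v^2) = N((u - v)^(q^i)) = N(u - v)`.
-/

set_option autoImplicit false

namespace Pool.Agent.Lib.NGV

open Finset SimpleGraph Pool.Agent.Lib.MP_f4a4e4_co.NGX Pool.Agent.Lib.NGT

private theorem pow_card_pow {F : Type} [Field F] [Finite F] (x : F) (i : ℕ) : x ^ (Nat.card F ^ i) = x := by
  have := Fintype.ofFinite F
  rw [Nat.card_eq_fintype_card]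
  exact FiniteField.pow_card_pow i x

/-- `u^(q^i) = u^2` for both points: the norm of the sum is `1` -/
theorem norm_one {F K : Type} [Field F] [Field K] [Finite K] [Algebra F K] {i : ℕ} {u v : K}
    (hu : u ^ (Nat.card F ^ i) = u ^ 2) (hv : v ^ (Nat.card F ^ i) = v ^ 2) (huv : u ≠ v) :
    Algebra.norm F (u + v) = 1 := by
  have hF : Finite F := Finite.of_injective (algebraMap F K) (algebraMap F K).injective
  have h0 : Algebra.norm F (u - v) ≠ 0 := by
    rw [Algebra.norm_ne_zero_iff]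
    exact sub_ne_zero.2 huv
  apply mul_right_cancel₀ h0
  have h1 : (u + v) * (u - v) = (u - v) ^ (Nat.card F ^ i) := by
    rw [frob_sub' F K i, hu, hv]
    ring
  rw [← map_mul, h1, map_pow, pow_card_pow, one_mul]

/-- `M + 1` points -/
theorem points {F K : Type} [Field F] [Field K] [Finite K] [Algebra F K] {n i M : ℕ} (hn : 1 ≤ n)
    (hm : Module.finrank F K = n) (hQ : Nat.card F ^ n ≡ 1 [MOD M]) (hi : Nat.card F ^ i ≡ 2 [MOD M]) :
    ∃ u : Fin (M + 1) → K, Function.Injective u ∧ ∀ k, u k ^ (Nat.card F ^ i) = u k ^ 2 := by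
  have hF : Finite F := Finite.of_injective (algebraMap F K) (algebraMap F K).injective
  have hq2 : 2 ≤ Nat.card F := Finite.one_lt_card
  have hcK : Nat.card K = Nat.card F ^ n := by rw [Module.natCard_eq_pow_finrank (K := F) (V := K), hm]
  have hbig : 2 ≤ Nat.card F ^ n := by
    calc 2 ≤ Nat.card F := hq2
      _ = Nat.card F ^ 1 := (pow_one _).symm
      _ ≤ Nat.card F ^ n := Nat.pow_le_pow_right (by omega) hn
  have hdvd : M ∣ Nat.card Kˣ := by
    rw [Nat.card_units K, hcK]
    exact (Nat.modEq_iff_dvd' (by omega)).1 hQ.symm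
  have hpos : 0 < Nat.card Kˣ := Nat.card_pos
  have hM0 : 0 < M := Nat.pos_of_dvd_of_pos hdvd hpos
  obtain ⟨ζ, hζ⟩ : ∃ ζ : Kˣ, orderOf ζ = M := by
    obtain ⟨g, hg⟩ := IsCyclic.exists_ofOrder_eq_natCard (α := Kˣ)
    obtain ⟨k, hk⟩ := hdvd
    have hk0 : k ≠ 0 := by
      rintro rfl
      rw [mul_zero] at hk
      omega
    refine ⟨g ^ k, ?_⟩
    rw [orderOf_pow' g hk0, hg, hk, Nat.gcd_mul_left_left, Nat.mul_div_cancel _ (Nat.pos_of_ne_zero hk0)]
  have hζ1 : ((ζ : K)) ^ M = 1 := by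
    have := pow_orderOf_eq_one ζ
    rw [hζ] at this
    have h2 := congrArg Units.val this
    rwa [Units.val_pow_eq_pow_val, Units.val_one] at h2
  refine ⟨fun k => if k.1 = 0 then 0 else (ζ : K) ^ k.1, ?_, ?_⟩
  · intro k l hkl
    simp only at hkl
    by_cases hk : k.1 = 0
    · by_cases hl : l.1 = 0
      · exact Fin.ext (hk.trans hl.symm)
      · rw [if_pos hk, if_neg hl] at hkl
        exact absurd hkl.symm (pow_ne_zero _ ζ.ne_zero)
    · by_cases hl : l.1 = 0
      · rw [if_neg hk, if_pos hl] at hkl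
        exact absurd hkl (pow_ne_zero _ ζ.ne_zero)
      · rw [if_neg hk, if_neg hl] at hkl
        have h1 : ζ ^ k.1 = ζ ^ l.1 := Units.ext (by push_cast; exact hkl)
        have h2 := pow_eq_pow_iff_modEq.1 h1
        rw [hζ] at h2
        have hk2 := k.2
        have hl2 := l.2
        have h3 : (k.1 - 1) + 1 ≡ (l.1 - 1) + 1 [MOD M] := by
          rwa [Nat.sub_add_cancel (by omega), Nat.sub_add_cancel (by omega)]
        have h4 := Nat.ModEq.add_right_cancel' 1 h3
        have h5 := Nat.ModEq.eq_of_lt_of_lt h4 (by omega) (by omega)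
        exact Fin.ext (by omega)
  · intro k
    by_cases hk : k.1 = 0
    · simp only [if_pos hk]
      rw [zero_pow (pow_ne_zero _ (by omega)), zero_pow (by norm_num)]
    · simp only [if_neg hk]
      refine pow_eq_pow_of_modEq hi ?_
      rw [← pow_mul, mul_comm, pow_mul, hζ1, one_pow]

/-- the complete graph on `M + 1` vertices -/
theorem clique {F K : Type} [Field F] [Field K] [Finite K] [Algebra F K] {n i M : ℕ} (hn : 1 ≤ n)
    (hm : Module.finrank F K = n) (hQ : Nat.card F ^ n ≡ 1 [MOD M]) (hi : Nat.card F ^ i ≡ 2 [MOD M]) :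
    (⊤ : SimpleGraph (Fin (M + 1))) ⊑ NormGraph F K := by
  obtain ⟨u, hu, hu2⟩ := points hn hm hQ hi
  have hinj : Function.Injective (fun i : Fin (M + 1) => ((u i, 1) : K × Fˣ)) := by
    intro i k hij
    exact hu (Prod.ext_iff.1 hij).1
  refine ⟨⟨⟨fun i => (u i, 1), ?_⟩, hinj⟩⟩
  intro i k hij
  have hne : i ≠ k := hij
  refine ⟨fun h => hne (hinj h), ?_⟩
  rw [norm_one (hu2 i) (hu2 k) (fun h => hne (hu h))]
  simp

/-- `K_{a,b+1}`, `a + b = M + 1` -/
theorem biclique {F K : Type} [Field F] [Field K] [Finite K] [Algebra F K] {n i M : ℕ} (hn : 1 ≤ n)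
    (hm : Module.finrank F K = n) (hF4 : 4 ≤ Nat.card F) (hQ : Nat.card F ^ n ≡ 1 [MOD M])
    (hi : Nat.card F ^ i ≡ 2 [MOD M]) {a b : ℕ} (hab : a + b = M + 1) :
    completeBipartiteGraph (Fin a) (Fin (b + 1)) ⊑ NormGraph F K := by
  classical
  have hF : Finite F := Finite.of_injective (algebraMap F K) (algebraMap F K).injective
  have hcK : Nat.card K = Nat.card F ^ n := by rw [Module.natCard_eq_pow_finrank (K := F) (V := K), hm]
  obtain ⟨u, hu, hu2⟩ := points hn hm hQ hi
  have h2n : 2 ≤ 2 ^ n := by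
    calc 2 = 2 ^ 1 := rfl
      _ ≤ 2 ^ n := Nat.pow_le_pow_right (by norm_num) hn
  have hMn : 2 ^ n ≡ 1 [MOD M] := by
    have h1 := hi.pow n
    have h2 := hQ.pow i
    rw [one_pow, ← pow_mul, mul_comm n i, pow_mul] at h2
    exact h1.symm.trans h2
  have hMle : M ≤ 2 ^ n - 1 := Nat.le_of_dvd (by omega) ((Nat.modEq_iff_dvd' (by omega)).1 hMn.symm)
  have hs : a + b + a * b < Nat.card F ^ n := size hn hF4 (by omega)
  set A : Finset K := (univ : Finset (Fin a)).image (fun k => u ⟨k.1, by omega⟩) with hA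
  set B : Finset K := (univ : Finset (Fin b)).image (fun k => -u ⟨a + k.1, by omega⟩) with hB
  have hAc : A.card = a := by
    rw [hA, card_image_of_injective, card_univ, Fintype.card_fin]
    intro k l hkl
    have h1 := congrArg Fin.val (hu hkl)
    exact Fin.ext h1
  have hBc : B.card = b := by
    rw [hB, card_image_of_injective, card_univ, Fintype.card_fin]
    intro k l hkl
    have h1 := congrArg Fin.val (hu (neg_injective hkl))
    simp only at h1
    exact Fin.ext (by omega)
  have hN : ∀ x ∈ A, ∀ y ∈ B, Algebra.norm F (x - y) = 1 := by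
    intro x hx y hy
    obtain ⟨k, -, rfl⟩ := mem_image.1 hx
    obtain ⟨l, -, rfl⟩ := mem_image.1 hy
    rw [sub_neg_eq_add]
    refine norm_one (hu2 _) (hu2 _) ?_
    intro h
    have h1 := congrArg Fin.val (hu h)
    simp only at h1
    have := k.2
    omega
  have key1 : completeBipartiteGraph (Fin A.card) (Fin (B.card + 1)) ⊑ NormGraph F K := by
    refine bic' A B ?_ ?_ ?_
    · intro x hx y hy hxy
      have h1 := hN x hx y hy
      rw [hxy, sub_self, Algebra.norm_zero] at h1
      exact zero_ne_one h1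
    · intro x hx x' hx' y hy
      rw [hN x hx y hy, hN x' hx' y hy]
    · rw [hAc, hBc, hcK]
      exact hs
  rwa [hAc, hBc] at key1

end Pool.Agent.Lib.NGV
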