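import Pool.Agent.Lib.NGV.Clq

/-!
# NGV / Fin: the criterion `M ∣ q^(s-1) ± 1`, `M ∣ q^i ± 2`, and its residue classes
-/

set_option autoImplicit false

namespace Pool.Agent.Lib.NGV

open SimpleGraph Pool.Agent.Lib.MP_f4a4e4_co.NGX Pool.Agent.Lib.NGT

private theorem exists_inv {n j : ℕ} (hn : 2 ≤ n) (hj : Nat.Coprime j n) : ∃ i k : ℕ, j * i = 1 + n * k := by
  obtain ⟨i, hi⟩ := Nat.exists_mul_mod_eq_one_of_coprime hj (by omega)
  refine ⟨i, (j * i) / n, ?_⟩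
  have h := Nat.mod_add_div (j * i) n
  obtain ⟨h1, h2⟩ := hi
  omega

/-- the residue classes `± 2^j` modulo a divisor `M` of `2^n ± 1` satisfy the criterion -/
theorem class_crit {n j M q : ℕ} (hn : 2 ≤ n) (hj : Nat.Coprime j n) (hM : PM M (2 ^ n) 1) (hq : PM M q (2 ^ j)) :
    PM M (q ^ n) 1 ∧ ∃ i, PM M (q ^ i) 2 := by
  constructor
  · refine (hq.pow n).trans ?_
    rw [← pow_mul, mul_comm j n, pow_mul]
    have h1 := hM.pow j
    rwa [one_pow] at h1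
  · obtain ⟨i, k, hik⟩ := exists_inv hn hj
    refine ⟨i, (hq.pow i).trans ?_⟩
    rw [← pow_mul, hik, pow_add, pow_one, pow_mul]
    have h1 := (PM.refl M 2).mul (hM.pow k)
    rwa [one_pow, mul_one] at h1

theorem class_crit_pos {n j M q : ℕ} (hn : 2 ≤ n) (hj : Nat.Coprime j n) (hM : 2 ^ n ≡ 1 [MOD M])
    (hq : q ≡ 2 ^ j [MOD M]) : q ^ n ≡ 1 [MOD M] ∧ ∃ i, q ^ i ≡ 2 [MOD M] := by
  constructor
  · refine (hq.pow n).trans ?_
    rw [← pow_mul, mul_comm j n, pow_mul]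
    have h1 := hM.pow j
    rwa [one_pow] at h1
  · obtain ⟨i, k, hik⟩ := exists_inv hn hj
    refine ⟨i, (hq.pow i).trans ?_⟩
    rw [← pow_mul, hik, pow_add, pow_one, pow_mul]
    have h1 := (hM.pow k).mul_left 2
    rwa [one_pow, mul_one] at h1

theorem primes_pos {M : ℕ} (j : ℕ) (hM : Odd M) : {p : ℕ | p.Prime ∧ p ≡ 2 ^ j [MOD M]}.Infinite :=
  Nat.infinite_setOfPred_prime_and_modEq hM.pos.ne' (Nat.Coprime.pow_left j (Nat.coprime_two_left.2 hM))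

theorem primes_neg {M : ℕ} (j : ℕ) (hM : Odd M) : {p : ℕ | p.Prime ∧ M ∣ p + 2 ^ j}.Infinite := by
  obtain ⟨m, rfl⟩ : ∃ m, M = m + 1 := ⟨M - 1, by
    have := hM.pos
    omega⟩
  have hco : Nat.Coprime (m * 2 ^ j) (m + 1) := by
    refine Nat.Coprime.mul_left ?_ (Nat.Coprime.pow_left j (Nat.coprime_two_left.2 hM))
    exact (Nat.coprime_self_add_right).2 (Nat.coprime_one_right m)
  refine (Nat.infinite_setOfPred_prime_and_modEq (by omega) hco).mono ?_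
  rintro p ⟨hp, h⟩
  refine ⟨hp, ?_⟩
  have h1 : p + 2 ^ j ≡ 0 [MOD m + 1] := by
    refine (h.add_right _).trans ?_
    refine (Nat.modEq_zero_iff_dvd).2 ⟨2 ^ j, ?_⟩
    ring
  exact (Nat.modEq_zero_iff_dvd).1 h1

theorem crit (s : ℕ) (hs : 3 ≤ s) :
    (∀ (F K : Type) [Field F] [Field K] [Finite K] [Algebra F K], Module.finrank F K = s - 1 → ∀ M i : ℕ,
      (Nat.card F ^ (s - 1) ≡ 1 [MOD M] → Nat.card F ^ i ≡ 2 [MOD M] →
        (⊤ : SimpleGraph (Fin (M + 1))) ⊑ NormGraph F K ∧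
        (3 < Nat.card F → ∀ a b : ℕ, a + b = M + 1 →
          completeBipartiteGraph (Fin a) (Fin (b + 1)) ⊑ NormGraph F K)) ∧
      (3 < Nat.card F → Odd (Nat.card F) →
        (Nat.card F ^ (s - 1) ≡ 1 [MOD M] ∨ M ∣ Nat.card F ^ (s - 1) + 1) →
        (Nat.card F ^ i ≡ 2 [MOD M] ∨ M ∣ Nat.card F ^ i + 2) →
          ∀ a b : ℕ, a + b + 1 = M → completeBipartiteGraph (Fin a) (Fin (b + 1)) ⊑ NormGraph F K)) ∧
    ∀ M j : ℕ, Nat.Coprime j (s - 1) → (2 ^ (s - 1) ≡ 1 [MOD M] ∨ M ∣ 2 ^ (s - 1) + 1) →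
      (∀ (F K : Type) [Field F] [Field K] [Finite K] [Algebra F K], Module.finrank F K = s - 1 →
        3 < Nat.card F → Odd (Nat.card F) → (Nat.card F ≡ 2 ^ j [MOD M] ∨ M ∣ Nat.card F + 2 ^ j) →
          ∀ a b : ℕ, a + b + 1 = M → completeBipartiteGraph (Fin a) (Fin (b + 1)) ⊑ NormGraph F K) ∧
      (∀ (F K : Type) [Field F] [Field K] [Finite K] [Algebra F K], Module.finrank F K = s - 1 →
        2 ^ (s - 1) ≡ 1 [MOD M] → Nat.card F ≡ 2 ^ j [MOD M] →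
          (⊤ : SimpleGraph (Fin (M + 1))) ⊑ NormGraph F K ∧
          (3 < Nat.card F → ∀ a b : ℕ, a + b = M + 1 →
            completeBipartiteGraph (Fin a) (Fin (b + 1)) ⊑ NormGraph F K)) ∧
      {p : ℕ | p.Prime ∧ p ≡ 2 ^ j [MOD M]}.Infinite ∧ {p : ℕ | p.Prime ∧ M ∣ p + 2 ^ j}.Infinite := by
  have hn : 2 ≤ s - 1 := by omega
  have hn1 : 1 ≤ s - 1 := by omega
  refine ⟨?_, ?_⟩
  · intro F K _ _ _ _ hm M i
    refine ⟨fun hQ hi => ⟨clique hn1 hm hQ hi, fun hF a b hab => biclique hn1 hm hF hQ hi hab⟩, ?_⟩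
    intro hF hodd hQ hi a b hab
    exact main hn1 hm hodd hF hQ hi hab
  · intro M j hj hM
    have hM' : PM M (2 ^ (s - 1)) 1 := hM
    have hMo := (le_of_PM hn1 hM').1
    refine ⟨?_, ?_, primes_pos j hMo, primes_neg j hMo⟩
    · intro F K _ _ _ _ hm hF hodd hq a b hab
      obtain ⟨hQ, i, hi⟩ := class_crit hn hj hM' hq
      exact main hn1 hm hodd hF hQ hi hab
    · intro F K _ _ _ _ hm hM1 hq
      obtain ⟨hQ, i, hi⟩ := class_crit_pos hn hj hM1 hq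
      exact ⟨clique hn1 hm hQ hi, fun hF a b hab => biclique hn1 hm hF hQ hi hab⟩

end Pool.Agent.Lib.NGV
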