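import Pool.Agent.Lib.NGV.Val
import Pool.Agent.Lib.NGT.Num

/-!
# NGV / Mn: `M ∣ q^n ± 1` and `M ∣ q^i ± 2`: bicliques with `M` vertices (copy of NGT / Mn)
-/

set_option autoImplicit false

namespace Pool.Agent.Lib.NGV

open Finset SimpleGraph Pool.Agent.Lib.MP_f4a4e4_co.NGX Pool.Agent.Lib.NGT

theorem cop' {q n M : ℕ} (hn : 1 ≤ n) (hQ : PM M (q ^ n) 1) : Nat.Coprime q M := by
  rw [Nat.coprime_iff_gcd_eq_one]
  have hg1 : Nat.gcd q M ∣ q ^ n := (Nat.gcd_dvd_left q M).trans (dvd_pow_self q (by omega))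
  have hg2 : Nat.gcd q M ∣ M := Nat.gcd_dvd_right q M
  rcases hQ with h | h
  · have h1 : q ^ n ≡ 1 [MOD Nat.gcd q M] := h.of_dvd hg2
    have h2 : q ^ n ≡ 0 [MOD Nat.gcd q M] := (Nat.modEq_zero_iff_dvd).2 hg1
    exact Nat.dvd_one.1 ((Nat.modEq_zero_iff_dvd).1 (h1.symm.trans h2))
  · exact Nat.dvd_one.1 ((Nat.dvd_add_right hg1).1 (hg2.trans h))

theorem main {F K : Type} [Field F] [Field K] [Finite K] [Algebra F K] {n i M : ℕ} (hn : 1 ≤ n)
    (hm : Module.finrank F K = n) (hodd : Odd (Nat.card F)) (hF4 : 4 ≤ Nat.card F)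
    (hQ' : PM M (Nat.card F ^ n) 1) (hi : PM M (Nat.card F ^ i) 2) {a b : ℕ} (hab : a + b + 1 = M) :
    completeBipartiteGraph (Fin a) (Fin (b + 1)) ⊑ NormGraph F K := by
  classical
  have hF : Finite F := Finite.of_injective (algebraMap F K) (algebraMap F K).injective
  obtain ⟨hMo, hMle⟩ := le_of_PM hn (PM_two' hQ' hi)
  have hs : a + b + a * b < Nat.card F ^ n := size hn hF4 (by omega)
  have hcK : Nat.card K = Nat.card F ^ n := by rw [Module.natCard_eq_pow_finrank (K := F) (V := K), hm]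
  have hQ : PM M (Nat.card K) 1 := by
    rw [hcK]
    exact hQ'
  have h2L : (2 : AlgebraicClosure K) ≠ 0 := two_ne (F := F) hodd
  obtain ⟨ω, hω0, hω⟩ := exists_om (L := AlgebraicClosure K) M (Nat.card K) Finite.one_lt_card hQ
  obtain ⟨ε, hε0, hε⟩ := P_val' (F := F) (L := AlgebraicClosure K) hodd hMo hQ' hi
  have : NeZero (M : AlgebraicClosure K) := ⟨cast_ne (F := F) (cop' hn hQ')⟩
  obtain ⟨ζ, hζ⟩ := HasEnoughRootsOfUnity.exists_primitiveRoot (AlgebraicClosure K) M
  have hadd : ∀ x y : AlgebraicClosure K, (x + y) ^ (Nat.card K) = x ^ (Nat.card K) + y ^ (Nat.card K) := by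
    intro x y
    rw [hcK]
    exact frob_add' F _ n x y
  have hsub : ∀ x y : AlgebraicClosure K, (x - y) ^ (Nat.card K) = x ^ (Nat.card K) - y ^ (Nat.card K) := by
    intro x y
    rw [hcK]
    exact frob_sub' F _ n x y
  have hV : ∀ u : AlgebraicClosure K, u ^ M = 1 → ∃ x : K, algebraMap K (AlgebraicClosure K) x = ω * (u - u⁻¹) / (u + u⁻¹) :=
    fun u hu => Pool.Agent.Lib.NGE.descent _ (fixV _ hadd hsub (hω u hu))
  have hU : ∀ u : AlgebraicClosure K, u ^ M = 1 → ∃ x : K, algebraMap K (AlgebraicClosure K) x = ω * (u + u⁻¹) / (u - u⁻¹) :=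
    fun u hu => Pool.Agent.Lib.NGE.descent _ (fixU _ hadd hsub (hω u hu))
  choose! fV hfV using hV
  choose! fU hfU using hU
  have hz : ∀ i : ℕ, (ζ ^ i) ^ M = 1 := fun i => by rw [← pow_mul, mul_comm, pow_mul, hζ.pow_eq_one, one_pow]
  have hz1 : ∀ i : ℕ, 0 < i → i < M → ζ ^ i ≠ 1 := fun i h0 hi => hζ.pow_ne_one_of_pos_of_lt h0.ne' hi
  set A : Finset K := (range a).image fun i => fV (ζ ^ (i + 1)) with hA
  set B : Finset K := (range b).image fun i => fU (ζ ^ (a + i + 1)) with hB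
  have hAc : A.card = a := by
    rw [hA, card_image_of_injOn, card_range]
    intro i hi k hk hik
    have hi' := mem_range.1 (Finset.mem_coe.1 hi)
    have hk' := mem_range.1 (Finset.mem_coe.1 hk)
    have h1 : fV (ζ ^ (i + 1)) = fV (ζ ^ (k + 1)) := hik
    have h3 := congrArg (algebraMap K (AlgebraicClosure K)) h1
    rw [hfV _ (hz _), hfV _ (hz _)] at h3
    have h4 := injV hMo h2L hω0 (hz _) (hz _) h3
    have h5 := hζ.pow_inj (by omega) (by omega) h4
    omega
  have hBc : B.card = b := by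
    rw [hB, card_image_of_injOn, card_range]
    intro i hi k hk hik
    have hi' := mem_range.1 (Finset.mem_coe.1 hi)
    have hk' := mem_range.1 (Finset.mem_coe.1 hk)
    have h1 : fU (ζ ^ (a + i + 1)) = fU (ζ ^ (a + k + 1)) := hik
    have h3 := congrArg (algebraMap K (AlgebraicClosure K)) h1
    rw [hfU _ (hz _), hfU _ (hz _)] at h3
    have h4 := injU hMo h2L hω0 (hz _) (hz _) (hz1 _ (by omega) (by omega)) (hz1 _ (by omega) (by omega)) h3
    have h5 := hζ.pow_inj (by omega) (by omega) h4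
    omega
  have hP : ∀ i ∈ range a, ∀ k ∈ range b,
      algebraMap K (AlgebraicClosure K) (algebraMap F K (Algebra.norm F (fV (ζ ^ (i + 1)) - fU (ζ ^ (a + k + 1))))) =
        P F n (-2 * ω) / P F n (ζ ^ (a + k + 1) - (ζ ^ (a + k + 1))⁻¹) := by
    intro i hi k hk
    have hi' := mem_range.1 hi
    have hk' := mem_range.1 hk
    rw [norm_P, map_sub, hfV _ (hz _), hfU _ (hz _), hm]
    refine P_diff hMo h2L hε0 hε ω _ _ (hz _) (hz _) (hz1 _ (by omega) (by omega)) (hz1 _ (by omega) (by omega)) ?_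
    intro h
    have h5 := hζ.pow_inj (by omega) (by omega) h
    omega
  have hP0 : ∀ x : AlgebraicClosure K, x ≠ 0 → P F n x ≠ 0 := by
    intro x hx
    exact Finset.prod_ne_zero_iff.2 fun i _ => pow_ne_zero _ hx
  have hinj : Function.Injective fun c : F => algebraMap K (AlgebraicClosure K) (algebraMap F K c) :=
    (algebraMap K (AlgebraicClosure K)).injective.comp (algebraMap F K).injective
  have key1 : completeBipartiteGraph (Fin A.card) (Fin (B.card + 1)) ⊑ NormGraph F K := by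
    refine bic' A B ?_ ?_ ?_
    · intro x hx y hy hxy
      obtain ⟨i, hi, rfl⟩ := mem_image.1 hx
      obtain ⟨k, hk, rfl⟩ := mem_image.1 hy
      have h1 := hP i hi k hk
      rw [hxy, sub_self] at h1
      have h3 : Algebra.norm F (0 : K) = 0 := by
        exact Algebra.norm_zero
      rw [h3, map_zero, map_zero] at h1
      have hk' := mem_range.1 hk
      refine (div_ne_zero (hP0 _ (mul_ne_zero (neg_ne_zero.2 h2L) hω0)) (hP0 _ (sub_ne hMo (hz _) (hz1 _ (by omega) (by omega))))) h1.symm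
    · intro x hx x' hx' y hy
      obtain ⟨i, hi, rfl⟩ := mem_image.1 hx
      obtain ⟨i', hi', rfl⟩ := mem_image.1 hx'
      obtain ⟨k, hk, rfl⟩ := mem_image.1 hy
      apply hinj
      show algebraMap K (AlgebraicClosure K) (algebraMap F K _) = algebraMap K (AlgebraicClosure K) (algebraMap F K _)
      rw [hP i hi k hk, hP i' hi' k hk]
    · rw [hAc, hBc, hcK]
      exact hs
  rwa [hAc, hBc] at key1

end Pool.Agent.Lib.NGV
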