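import Pool.Agent.Lib.NGT.Mn

/-!
# NGV / Val: the value of the norm form on `r + 1/r` if `M ∣ q^n ± 1` and `M ∣ q^i ± 2`

`w = r - 1/r`: `(r + 1/r) w = r^2 - 1/r^2 = ± w^(q^i)`, and the norm form `P` has `P(w)^q = ± P(w)`, so `P(r + 1/r) = ± 1`.
-/

set_option autoImplicit false

namespace Pool.Agent.Lib.NGV

open Finset Pool.Agent.Lib.NGT

theorem PM.symm' {M a b : ℕ} (h : PM M a b) : PM M b a := by
  rcases h with h | h
  · exact Or.inl h.symm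
  · right
    rwa [add_comm]

/-- `M` divides `2^n - 1` or `2^n + 1` -/
theorem PM_two' {q n i M : ℕ} (hQ : PM M (q ^ n) 1) (hi : PM M (q ^ i) 2) : PM M (2 ^ n) 1 := by
  have h1 := hi.pow n
  have h2 := hQ.pow i
  rw [one_pow, ← pow_mul, mul_comm n i, pow_mul] at h2
  exact (PM.symm' h1).trans h2

theorem le_of_PM {n M : ℕ} (hn : 1 ≤ n) (h : PM M (2 ^ n) 1) : Odd M ∧ M ≤ 2 ^ n + 1 := by
  have h2 : 2 ≤ 2 ^ n := by
    calc 2 = 2 ^ 1 := rfl
      _ ≤ 2 ^ n := Nat.pow_le_pow_right (by norm_num) hn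
  have hev : Even (2 ^ n) := by
    rw [Nat.even_pow]
    exact ⟨even_two, by omega⟩
  rcases h with h | h
  · have h1 : M ∣ 2 ^ n - 1 := (Nat.modEq_iff_dvd' (by omega)).1 h.symm
    have ho : Odd (2 ^ n - 1) := Nat.Even.sub_odd (by omega) hev odd_one
    exact ⟨Odd.of_dvd_nat ho h1, (Nat.le_of_dvd (by omega) h1).trans (by omega)⟩
  · exact ⟨Odd.of_dvd_nat hev.add_one h, Nat.le_of_dvd (by omega) h⟩

theorem P_pow (F : Type*) {L : Type*} [Field L] (n : ℕ) (x : L) (k : ℕ) : P F n (x ^ k) = P F n x ^ k := by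
  simp only [P, ← Finset.prod_pow, ← pow_mul, mul_comm]

theorem P_frob (F : Type*) {L : Type*} [Field L] (n : ℕ) (x : L) :
    P F n x ^ Nat.card F * x = P F n x * x ^ (Nat.card F ^ n) := by
  have h1 : P F n x ^ Nat.card F = ∏ k ∈ range n, x ^ (Nat.card F ^ (k + 1)) := by
    simp only [P, ← Finset.prod_pow, ← pow_mul, pow_succ]
  have h2 := Finset.prod_range_succ' (fun k => x ^ (Nat.card F ^ k)) n
  have h3 := Finset.prod_range_succ (fun k => x ^ (Nat.card F ^ k)) n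
  rw [h1]
  rw [h3] at h2
  simp only [pow_zero, pow_one] at h2
  exact h2.symm

theorem P_ne {F L : Type*} [Field L] {n : ℕ} {x : L} (hx : x ≠ 0) : P F n x ≠ 0 :=
  Finset.prod_ne_zero_iff.2 fun _ _ => pow_ne_zero _ hx

private theorem inv_of_dvd {L : Type*} [Field L] {M a b : ℕ} {r : L} (hr : r ^ M = 1) (h : M ∣ a + b) :
    r ^ a = (r⁻¹) ^ b ∧ (r⁻¹) ^ a = r ^ b := by
  obtain ⟨t, ht⟩ := h
  have h1 : r ^ a * r ^ b = 1 := by rw [← pow_add, ht, pow_mul, hr, one_pow]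
  constructor
  · rw [inv_pow]
    exact eq_inv_of_mul_eq_one_left h1
  · rw [inv_pow]
    exact inv_eq_of_mul_eq_one_right h1

/-- the value of the norm form on `r + 1/r` -/
theorem P_val' {F L : Type*} [Field F] [Finite F] [Field L] [Algebra F L] {n i M : ℕ} (hodd : Odd (Nat.card F))
    (hMo : Odd M) (hQ : PM M (Nat.card F ^ n) 1) (hi : PM M (Nat.card F ^ i) 2) :
    ∃ ε : L, ε ≠ 0 ∧ ∀ r : L, r ^ M = 1 → r ≠ 1 → P F n (r + r⁻¹) = ε := by
  have hinv : ∀ r : L, r ^ M = 1 → (r⁻¹) ^ M = 1 := fun r hr => by rw [inv_pow, hr, inv_one]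
  obtain ⟨σ, hσ0, hσq, hσ⟩ : ∃ σ : L, σ ≠ 0 ∧ σ ^ Nat.card F = σ ∧
      ∀ r : L, r ^ M = 1 → (r - r⁻¹) ^ (Nat.card F ^ n) = σ * (r - r⁻¹) := by
    rcases hQ with h | h
    · refine ⟨1, one_ne_zero, one_pow _, fun r hr => ?_⟩
      rw [frob_sub' F L n, pow_eq_pow_of_modEq h hr, pow_eq_pow_of_modEq h (hinv r hr), pow_one, pow_one, one_mul]
    · refine ⟨-1, neg_ne_zero.2 one_ne_zero, hodd.neg_one_pow, fun r hr => ?_⟩
      obtain ⟨h1, h2⟩ := inv_of_dvd hr h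
      rw [frob_sub' F L n, h1, h2]
      ring
  obtain ⟨τ, hτ0, hτ⟩ : ∃ τ : L, τ ≠ 0 ∧
      ∀ r : L, r ^ M = 1 → (r + r⁻¹) * (r - r⁻¹) = τ * (r - r⁻¹) ^ (Nat.card F ^ i) := by
    rcases hi with h | h
    · refine ⟨1, one_ne_zero, fun r hr => ?_⟩
      rw [frob_sub' F L i, pow_eq_pow_of_modEq h hr, pow_eq_pow_of_modEq h (hinv r hr)]
      ring
    · refine ⟨-1, neg_ne_zero.2 one_ne_zero, fun r hr => ?_⟩
      obtain ⟨h1, h2⟩ := inv_of_dvd hr h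
      rw [frob_sub' F L i, h1, h2]
      ring
  refine ⟨P F n τ * σ ^ i, mul_ne_zero (P_ne hτ0) (pow_ne_zero _ hσ0), fun r hr hr1 => ?_⟩
  have hw : r - r⁻¹ ≠ 0 := sub_ne hMo hr hr1
  have hPw : P F n (r - r⁻¹) ≠ 0 := P_ne hw
  have h1 : P F n (r - r⁻¹) ^ Nat.card F = σ * P F n (r - r⁻¹) := by
    have h2 := P_frob F n (r - r⁻¹)
    rw [hσ r hr] at h2
    apply mul_right_cancel₀ hw
    rw [h2]
    ring
  have h3 : ∀ k : ℕ, P F n (r - r⁻¹) ^ (Nat.card F ^ k) = σ ^ k * P F n (r - r⁻¹) := by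
    intro k
    induction k with
    | zero => simp
    | succ k ih =>
      have e : σ ^ k * σ ^ 1 = σ ^ (k + 1) := by rw [← pow_add]
      rw [pow_succ, pow_mul, ih, mul_pow, h1, ← pow_mul, mul_comm k, pow_mul, hσq]
      ring
  apply mul_right_cancel₀ hPw
  rw [← P_mul, hτ r hr, P_mul, P_pow, h3]
  ring

end Pool.Agent.Lib.NGV
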